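import Mathlib

set_option autoImplicit false

/-! Hochschild cohomology with coefficients by dimension shifting (Hochschild's recursion).
`Van1 M` : every derivation `A → M` is inner, i.e. `H^1(A,M)=0`;
`HVan n M := Van1 (T^n M)` is `H^{n+1}(A,M)=0`. -/

namespace HanHoch

variable {k : Type} [Field k] {A : Type} [Ring A] [Algebra k A]

variable (k A) in
/-- Bimodules (no unit axiom on the right). -/
structure Bim where
  V : Type
  [ag : AddCommGroup V]
  [md : Module k V]
  l : A →ₗ[k] V →ₗ[k] V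
  r : A →ₗ[k] V →ₗ[k] V
  l_mul : ∀ a b v, l (a * b) v = l a (l b v)
  r_mul : ∀ a b v, r (a * b) v = r b (r a v)
  l_r : ∀ a b v, l a (r b v) = r b (l a v)
  l_one : ∀ v, l 1 v = v

attribute [instance] Bim.ag Bim.md

/-- `Hom_k(A,M)` with `(a·f)(b) = a·f(b)`, `(f·a)(b) = f(ab) - f(a)·b`. -/
def T (M : Bim k A) : Bim k A where
  V := A →ₗ[k] M.V
  l := LinearMap.mk₂ k (fun a f => (M.l a).comp f)
    (by intro a b f; ext x; simp)
    (by intro c a f; ext x; simp)
    (by intro a f g; ext x; simp)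
    (by intro c a f; ext x; simp)
  r := LinearMap.mk₂ k (fun a f => f.comp (LinearMap.mulLeft k a) - M.r.flip (f a))
    (by intro a b f; ext x; simp [add_mul]; abel)
    (by intro c a f; ext x; simp [smul_sub])
    (by intro a f g; ext x; simp; abel)
    (by intro c a f; ext x; simp [smul_sub])
  l_mul := by intro a b f; ext x; simp [M.l_mul]
  r_mul := by
    intro a b f; ext x
    simp [M.r_mul]
  l_r := by
    intro a b f; ext x
    simp [M.l_r]
  l_one := by intro f; ext x; simp [M.l_one]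

@[simp] lemma T_l (M : Bim k A) (a : A) (f : A →ₗ[k] M.V) (b : A) :
    (show A →ₗ[k] M.V from (T M).l a f) b = M.l a (f b) := rfl

@[simp] lemma T_r (M : Bim k A) (a : A) (f : A →ₗ[k] M.V) (b : A) :
    (show A →ₗ[k] M.V from (T M).r a f) b = f (a * b) - M.r b (f a) := rfl

/-- `m ↦ (a ↦ a·m - m·a)` -/
def delta (M : Bim k A) : M.V →ₗ[k] (T M).V :=
  (show M.V →ₗ[k] (A →ₗ[k] M.V) from M.l.flip - M.r.flip)

lemma delta_apply (M : Bim k A) (m : M.V) (a : A) :
    (show A →ₗ[k] M.V from delta M m) a = M.l a m - M.r a m := rfl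

/-- being a derivation -/
def IsDer (M : Bim k A) (D : A →ₗ[k] M.V) : Prop :=
  ∀ a b, D (a * b) = M.l a (D b) + M.r b (D a)

/-- every derivation is inner: `H^1(A,M)=0` -/
def Van1 (M : Bim k A) : Prop :=
  ∀ D : A →ₗ[k] M.V, IsDer M D → ∃ m, ∀ a, D a = M.l a m - M.r a m

def Tn : ℕ → Bim k A → Bim k A
  | 0, M => M
  | n + 1, M => T (Tn n M)

/-- `H^{n+1}(A,M) = 0`. -/
def HVan (n : ℕ) (M : Bim k A) : Prop := Van1 (Tn n M)

/-- inner derivations are derivations -/
lemma isDer_delta (M : Bim k A) (m : M.V) : IsDer M (M.l.flip m - M.r.flip m) := by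
  intro a b
  simp [M.l_mul, M.r_mul, M.l_r]

/-! ### short exact sequences -/

structure SES (K M Q : Bim k A) where
  i : K.V →ₗ[k] M.V
  p : M.V →ₗ[k] Q.V
  il : ∀ a v, i (K.l a v) = M.l a (i v)
  ir : ∀ a v, i (K.r a v) = M.r a (i v)
  pl : ∀ a v, p (M.l a v) = Q.l a (p v)
  pr : ∀ a v, p (M.r a v) = Q.r a (p v)
  inj : Function.Injective i
  surj : Function.Surjective p
  pi : ∀ x, p (i x) = 0
  ex : ∀ m, p m = 0 → ∃ x, i x = m

def SES.T {K M Q : Bim k A} (S : SES K M Q) : SES (T K) (T M) (T Q) where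
  i := (show (A →ₗ[k] K.V) →ₗ[k] (A →ₗ[k] M.V) from LinearMap.compRight (M := A) k S.i)
  p := (show (A →ₗ[k] M.V) →ₗ[k] (A →ₗ[k] Q.V) from LinearMap.compRight (M := A) k S.p)
  il := by
    intro a f
    change A →ₗ[k] K.V at f
    refine LinearMap.ext fun x => ?_
    exact S.il a (f x)
  ir := by
    intro a f
    change A →ₗ[k] K.V at f
    refine LinearMap.ext fun x => ?_
    show S.i (f (a * x) - K.r x (f a)) = S.i (f (a * x)) - M.r x (S.i (f a))
    rw [map_sub, S.ir]
  pl := by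
    intro a f
    change A →ₗ[k] M.V at f
    refine LinearMap.ext fun x => ?_
    exact S.pl a (f x)
  pr := by
    intro a f
    change A →ₗ[k] M.V at f
    refine LinearMap.ext fun x => ?_
    show S.p (f (a * x) - M.r x (f a)) = S.p (f (a * x)) - Q.r x (S.p (f a))
    rw [map_sub, S.pr]
  inj := by
    intro f g h
    refine LinearMap.ext fun x => ?_
    apply S.inj
    exact congrArg (fun u : A →ₗ[k] M.V => u x) h
  surj := by
    intro g
    change A →ₗ[k] Q.V at g
    obtain ⟨s, hs⟩ := LinearMap.exists_rightInverse_of_surjective S.p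
      (LinearMap.range_eq_top.2 S.surj)
    refine ⟨s.comp g, ?_⟩
    refine LinearMap.ext fun x => ?_
    show S.p (s (g x)) = g x
    exact congrArg (fun u : Q.V →ₗ[k] Q.V => u (g x)) hs
  pi := by
    intro f
    change A →ₗ[k] K.V at f
    refine LinearMap.ext fun x => ?_
    exact S.pi (f x)
  ex := by
    intro f hf
    change A →ₗ[k] M.V at f
    obtain ⟨s, hs⟩ := LinearMap.exists_leftInverse_of_injective S.i
      (LinearMap.ker_eq_bot.2 S.inj)
    refine ⟨s.comp f, ?_⟩
    refine LinearMap.ext fun x => ?_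
    show S.i (s (f x)) = f x
    have h0 : S.p (f x) = 0 := congrArg (fun u : A →ₗ[k] Q.V => u x) hf
    obtain ⟨y, hy⟩ := S.ex _ h0
    have h1 : s (S.i y) = y := congrArg (fun u : K.V →ₗ[k] K.V => u y) hs
    rw [← hy, h1]

def SES.Tn {K M Q : Bim k A} (S : SES K M Q) : (n : ℕ) → SES (Tn n K) (Tn n M) (Tn n Q)
  | 0 => S
  | n + 1 => (S.Tn n).T

/-- (L1), base. -/
theorem Van1.mid {K M Q : Bim k A} (S : SES K M Q) (hK : Van1 K) (hQ : Van1 Q) : Van1 M := by
  intro D hD
  obtain ⟨q, hq⟩ := hQ (S.p.comp D) (by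
    intro a b
    show S.p (D (a * b)) = Q.l a (S.p (D b)) + Q.r b (S.p (D a))
    rw [hD a b, map_add, S.pl, S.pr])
  obtain ⟨m, rfl⟩ := S.surj q
  obtain ⟨s, hs⟩ := LinearMap.exists_leftInverse_of_injective S.i
    (LinearMap.ker_eq_bot.2 S.inj)
  have hs' : ∀ y, s (S.i y) = y := fun y => congrArg (fun u : K.V →ₗ[k] K.V => u y) hs
  set E : A →ₗ[k] M.V := D - (M.l.flip m - M.r.flip m) with hE
  have hEa : ∀ a, E a = D a - (M.l a m - M.r a m) := fun a => rfl
  have hEd : IsDer M E := by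
    intro a b
    have h1 := hD a b
    have h2 := isDer_delta M m a b
    simp only [hE, LinearMap.sub_apply] at h2 ⊢
    rw [h1, h2]
    simp only [map_sub]
    abel
  have hsE : ∀ a, S.i (s (E a)) = E a := by
    intro a
    have h0 : S.p (E a) = 0 := by
      rw [hEa, map_sub, map_sub, S.pl, S.pr]
      have := hq a
      simp only [LinearMap.comp_apply] at this
      rw [this]; abel
    obtain ⟨y, hy⟩ := S.ex _ h0
    rw [← hy, hs']
  obtain ⟨x, hx⟩ := hK (s.comp E) (by
    intro a b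
    apply S.inj
    show S.i (s (E (a * b))) = S.i (K.l a (s (E b)) + K.r b (s (E a)))
    rw [hsE, map_add, S.il, S.ir, hsE, hsE, hEd a b])
  refine ⟨m + S.i x, fun a => ?_⟩
  have h1 := congrArg S.i (hx a)
  simp only [LinearMap.comp_apply] at h1
  rw [hsE, map_sub, S.il, S.ir, hEa] at h1
  rw [map_add, map_add]
  have : D a = (M.l a m - M.r a m) + (M.l a (S.i x) - M.r a (S.i x)) := by
    rw [← h1]; abel
  rw [this]; abel

/-- (L3) -/
theorem Van1.left {K M Q : Bim k A} (S : SES K M Q) (hM : Van1 M)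
    (hQ : ∀ q : Q.V, (∀ a, Q.l a q = Q.r a q) → ∃ m : M.V, (∀ a, M.l a m = M.r a m) ∧ S.p m = q) :
    Van1 K := by
  intro D hD
  obtain ⟨m, hm⟩ := hM (S.i.comp D) (by
    intro a b
    show S.i (D (a * b)) = M.l a (S.i (D b)) + M.r b (S.i (D a))
    rw [hD a b, map_add, S.il, S.ir])
  obtain ⟨m', hm', hmm⟩ := hQ (S.p m) (by
    intro a
    have := congrArg S.p (hm a)
    simp only [LinearMap.comp_apply] at this
    rw [S.pi, map_sub, S.pl, S.pr] at this
    exact sub_eq_zero.1 this.symm)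
  obtain ⟨x, hx⟩ := S.ex (m - m') (by rw [map_sub, hmm, sub_self])
  refine ⟨x, fun a => ?_⟩
  apply S.inj
  rw [map_sub, S.il, S.ir, hx]
  have := hm a
  simp only [LinearMap.comp_apply] at this
  rw [this, map_sub, map_sub, hm' a]; abel

/-- (L2), base. -/
theorem Van1.shift {K M Q : Bim k A} (S : SES K M Q) (hM : Van1 (T M)) (hQ : Van1 Q) :
    Van1 (T K) := by
  refine Van1.left S.T hM ?_
  intro q hq
  -- q is a derivation into Q
  change A →ₗ[k] Q.V at q
  have hqd : IsDer Q q := by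
    intro a b
    have h := congrArg (fun u : A →ₗ[k] Q.V => u b) (hq a)
    have h' : Q.l a (q b) = q (a * b) - Q.r b (q a) := h
    rw [h']; abel
  obtain ⟨q0, hq0⟩ := hQ q hqd
  obtain ⟨m, rfl⟩ := S.surj q0
  refine ⟨(show A →ₗ[k] M.V from M.l.flip m - M.r.flip m), ?_, ?_⟩
  · intro a
    refine LinearMap.ext fun b => ?_
    show M.l a ((M.l.flip m - M.r.flip m) b) = (M.l.flip m - M.r.flip m) (a * b)
      - M.r b ((M.l.flip m - M.r.flip m) a)
    rw [isDer_delta M m a b]; abel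
  · refine LinearMap.ext fun a => ?_
    show S.p (M.l a m - M.r a m) = q a
    rw [hq0 a, map_sub, S.pl, S.pr]

theorem HVan.mid {K M Q : Bim k A} (S : SES K M Q) (n : ℕ) (hK : HVan n K) (hQ : HVan n Q) :
    HVan n M := Van1.mid (S.Tn n) hK hQ

theorem HVan.shift {K M Q : Bim k A} (S : SES K M Q) (n : ℕ) (hM : HVan (n + 1) M)
    (hQ : HVan n Q) : HVan (n + 1) K := Van1.shift (S.Tn n) hM hQ

/-! ### contractions -/

/-- contraction in the last variable -/
def CL (M : Bim k A) : Prop :=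
  ∃ h : (A →ₗ[k] M.V) →ₗ[k] M.V, (∀ a (t : A →ₗ[k] M.V), h ((M.l a).comp t) = M.l a (h t)) ∧
    (∀ a (t : A →ₗ[k] M.V), h (t.comp (LinearMap.mulLeft k a) - M.r.flip (t a)) - M.r a (h t) = t a)

theorem CL.van1 {M : Bim k A} (H : CL M) : Van1 M := by
  obtain ⟨h, h1, h2⟩ := H
  intro D hD
  refine ⟨h D, fun a => ?_⟩
  have e : (M.l a).comp D = D.comp (LinearMap.mulLeft k a) - M.r.flip (D a) := by
    refine LinearMap.ext fun b => ?_
    simp [hD a b]
  have h3 := h2 a D
  rw [← e, h1] at h3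
  exact h3.symm

theorem CL.step {M : Bim k A} (H : CL M) : CL (T M) := by
  obtain ⟨h, h1, h2⟩ := H
  refine ⟨(show (A →ₗ[k] (A →ₗ[k] M.V)) →ₗ[k] (A →ₗ[k] M.V) from
    - LinearMap.compRight (M := A) k h), ?_, ?_⟩
  · intro a t
    change A →ₗ[k] (A →ₗ[k] M.V) at t
    refine LinearMap.ext fun b => ?_
    show - h ((M.l a).comp (t b)) = M.l a (- h (t b))
    rw [h1, map_neg]
  · intro a t
    change A →ₗ[k] (A →ₗ[k] M.V) at t
    refine LinearMap.ext fun b => ?_
    show (- h ((t (a * b)) - ((t a).comp (LinearMap.mulLeft k b) - M.r.flip (t a b)))) -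
      ((- h (t (a * b))) - M.r b (- h (t a))) = t a b
    rw [map_sub]
    refine Eq.trans ?_ (h2 b (t a))
    rw [map_neg]
    abel

theorem CL.Tn {M : Bim k A} (H : CL M) : ∀ n, CL (Tn n M)
  | 0 => H
  | n + 1 => (H.Tn n).step

theorem CL.hvan {M : Bim k A} (H : CL M) (n : ℕ) : HVan n M := (H.Tn n).van1

/-- contraction in the first variable -/
def CR (M : Bim k A) : Prop :=
  ∃ h : (A →ₗ[k] M.V) →ₗ[k] M.V, (∀ a (t : A →ₗ[k] M.V), h ((M.r a).comp t) = M.r a (h t)) ∧
    (∀ a (t : A →ₗ[k] M.V), h (t.comp (LinearMap.mulRight k a)) = M.l a (h t)) ∧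
    (∀ m, h (M.l.flip m) = m)

theorem CR.van1 {M : Bim k A} (H : CR M) : Van1 M := by
  obtain ⟨h, h1, h2, h3⟩ := H
  intro D hD
  refine ⟨h D, fun a => ?_⟩
  have e : D.comp (LinearMap.mulRight k a) = M.l.flip (D a) + (M.r a).comp D := by
    refine LinearMap.ext fun b => ?_
    simp [hD b a]
  have h4 := h2 a D
  rw [e, map_add, h3, h1] at h4
  rw [← h4]; abel

theorem CR.step {M : Bim k A} (H : CR M) : CR (T M) := by
  obtain ⟨h, h1, h2, h3⟩ := H
  let η : (A →ₗ[k] (A →ₗ[k] M.V)) →ₗ[k] (A →ₗ[k] M.V) :=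
    { toFun := fun s => h.comp s.flip
      map_add' := by
        intro s t
        refine LinearMap.ext fun b => ?_
        show h ((s + t).flip b) = h (s.flip b) + h (t.flip b)
        rw [← map_add]; rfl
      map_smul' := by
        intro c s
        refine LinearMap.ext fun b => ?_
        show h ((c • s).flip b) = c • h (s.flip b)
        rw [← map_smul]; rfl }
  have hη : ∀ s b, η s b = h (s.flip b) := fun s b => rfl
  refine ⟨η, ?_, ?_, ?_⟩
  · intro a t
    change A →ₗ[k] (A →ₗ[k] M.V) at t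
    refine LinearMap.ext fun b => ?_
    show h (LinearMap.flip (((T M).r a).comp t : A →ₗ[k] (A →ₗ[k] M.V)) b) =
      h (t.flip (a * b)) - M.r b (h (t.flip a))
    have e : LinearMap.flip (((T M).r a).comp t : A →ₗ[k] (A →ₗ[k] M.V)) b
        = t.flip (a * b) - (M.r b).comp (t.flip a) := by
      refine LinearMap.ext fun c => ?_; rfl
    rw [e, map_sub, h1]
  · intro a t
    change A →ₗ[k] (A →ₗ[k] M.V) at t
    refine LinearMap.ext fun b => ?_
    show h (LinearMap.flip (t.comp (LinearMap.mulRight k a)) b) = M.l a (h (t.flip b))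
    rw [← h2]; rfl
  · intro m
    change A →ₗ[k] M.V at m
    refine LinearMap.ext fun b => ?_
    show h _ = m b
    conv_rhs => rw [← h3 (m b)]
    rfl

theorem CR.Tn {M : Bim k A} (H : CR M) : ∀ n, CR (Tn n M)
  | 0 => H
  | n + 1 => (H.Tn n).step

theorem CR.hvan {M : Bim k A} (H : CR M) (n : ℕ) : HVan n M := (H.Tn n).van1

end HanHoch
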