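import Mathlib
import Pool.Agent.Helper676.Hoch

set_option autoImplicit false

/-! `HVan` is invariant under isomorphism of bimodules. -/

namespace HanHoch

variable {k : Type} [Field k] {A : Type} [Ring A] [Algebra k A]

/-- isomorphism of bimodules -/
structure BIso (M N : Bim k A) where
  e : M.V ≃ₗ[k] N.V
  l : ∀ a v, e (M.l a v) = N.l a (e v)
  r : ∀ a v, e (M.r a v) = N.r a (e v)

def BIso.up {M N : Bim k A} (φ : BIso M N) : BIso (T M) (T N) where
  e := (show (A →ₗ[k] M.V) ≃ₗ[k] (A →ₗ[k] N.V) from LinearEquiv.congrRight φ.e)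
  l := by
    intro a f
    change A →ₗ[k] M.V at f
    refine LinearMap.ext fun x => ?_
    exact φ.l a (f x)
  r := by
    intro a f
    change A →ₗ[k] M.V at f
    refine LinearMap.ext fun x => ?_
    show φ.e (f (a * x) - M.r x (f a)) = φ.e (f (a * x)) - N.r x (φ.e (f a))
    rw [map_sub, φ.r]

def BIso.Tn {M N : Bim k A} (φ : BIso M N) : (n : ℕ) → BIso (Tn n M) (Tn n N)
  | 0 => φ
  | n + 1 => (φ.Tn n).up

theorem Van1.iso {M N : Bim k A} (φ : BIso M N) (h : Van1 M) : Van1 N := by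
  intro D hD
  have hl : ∀ a v, φ.e.symm (N.l a v) = M.l a (φ.e.symm v) := by
    intro a v
    rw [LinearEquiv.symm_apply_eq, φ.l, LinearEquiv.apply_symm_apply]
  have hr : ∀ a v, φ.e.symm (N.r a v) = M.r a (φ.e.symm v) := by
    intro a v
    rw [LinearEquiv.symm_apply_eq, φ.r, LinearEquiv.apply_symm_apply]
  obtain ⟨m, hm⟩ := h (φ.e.symm.toLinearMap.comp D) (by
    intro a b
    show φ.e.symm (D (a * b)) = M.l a (φ.e.symm (D b)) + M.r b (φ.e.symm (D a))
    rw [hD a b, map_add, hl, hr])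
  refine ⟨φ.e m, fun a => ?_⟩
  have h1 : φ.e.symm (D a) = M.l a m - M.r a m := hm a
  rw [← φ.l, ← φ.r, ← map_sub, ← h1, LinearEquiv.apply_symm_apply]

theorem HVan.iso {M N : Bim k A} (φ : BIso M N) (n : ℕ) (h : HVan n M) : HVan n N :=
  Van1.iso (φ.Tn n) h

end HanHoch
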