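import Mathlib
import Pool.Agent.Helper676.Hoch

set_option autoImplicit false

/-! The eigenvalue lemma. -/

namespace HanHoch

variable {k : Type} [Field k] {A : Type} [Ring A] [Algebra k A]

/-- derivations -/
def Z1 (M : Bim k A) : Submodule k (A →ₗ[k] M.V) where
  carrier := {D | IsDer M D}
  add_mem' := by
    intro D E hD hE a b
    simp only [LinearMap.add_apply, map_add, hD a b, hE a b]; abel
  zero_mem' := by intro a b; simp
  smul_mem' := by
    intro c D hD a b
    simp only [LinearMap.smul_apply, map_smul, hD a b, smul_add]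

/-- inner derivations -/
def B1 (M : Bim k A) : Submodule k (Z1 M) where
  carrier := {D | ∃ m, ∀ a, D.1 a = M.l a m - M.r a m}
  add_mem' := by
    rintro D E ⟨m, hm⟩ ⟨m', hm'⟩
    refine ⟨m + m', fun a => ?_⟩
    show D.1 a + E.1 a = _
    rw [hm, hm', map_add, map_add]; abel
  zero_mem' := ⟨0, fun a => by simp⟩
  smul_mem' := by
    rintro c D ⟨m, hm⟩
    refine ⟨c • m, fun a => ?_⟩
    show c • D.1 a = _
    rw [hm, map_smul, map_smul, smul_sub]

abbrev H1 (M : Bim k A) := Z1 M ⧸ B1 M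

lemma van1_of_H1 {M : Bim k A} (h : Subsingleton (H1 M)) : Van1 M := by
  intro D hD
  have : (Submodule.Quotient.mk (⟨D, hD⟩ : Z1 M) : H1 M) = 0 := Subsingleton.elim _ _
  rw [Submodule.Quotient.mk_eq_zero] at this
  exact this

/-- a bimodule map -/
structure IsBim {E F : Bim k A} (f : E.V →ₗ[k] F.V) : Prop where
  l : ∀ a v, f (E.l a v) = F.l a (f v)
  r : ∀ a v, f (E.r a v) = F.r a (f v)

def Z1map {E F : Bim k A} (f : E.V →ₗ[k] F.V) (hf : IsBim f) : Z1 E →ₗ[k] Z1 F where
  toFun D := ⟨f.comp D.1, by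
    intro a b
    have h := D.2 a b
    show f (D.1 (a * b)) = F.l a (f (D.1 b)) + F.r b (f (D.1 a))
    rw [h, map_add, hf.l, hf.r]⟩
  map_add' := by
    intro D E; apply Subtype.ext; refine LinearMap.ext fun x => ?_
    show f (D.1 x + E.1 x) = f (D.1 x) + f (E.1 x)
    rw [map_add]
  map_smul' := by
    intro c D; apply Subtype.ext; refine LinearMap.ext fun x => ?_
    show f (c • D.1 x) = c • f (D.1 x)
    rw [map_smul]

lemma Z1map_B1 {E F : Bim k A} (f : E.V →ₗ[k] F.V) (hf : IsBim f) :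
    B1 E ≤ (B1 F).comap (Z1map f hf) := by
  rintro D ⟨m, hm⟩
  refine ⟨f m, fun a => ?_⟩
  show f (D.1 a) = _
  rw [hm, map_sub, hf.l, hf.r]

def H1map {E F : Bim k A} (f : E.V →ₗ[k] F.V) (hf : IsBim f) : H1 E →ₗ[k] H1 F :=
  Submodule.mapQ (B1 E) (B1 F) (Z1map f hf) (Z1map_B1 f hf)

lemma SES.isBim {K M Q : Bim k A} (S : SES K M Q) : IsBim S.p := ⟨S.pl, S.pr⟩

lemma SES.H1_bij {K M Q : Bim k A} (S : SES K M Q) (h0 : Van1 K) (h1 : Van1 (HanHoch.T K)) :
    Function.Bijective (H1map S.p S.isBim) := by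
  obtain ⟨s, hs⟩ := LinearMap.exists_leftInverse_of_injective S.i
    (LinearMap.ker_eq_bot.2 S.inj)
  have hs' : ∀ y, s (S.i y) = y := fun y => congrArg (fun u : K.V →ₗ[k] K.V => u y) hs
  have hs2 : ∀ y, S.p y = 0 → S.i (s y) = y := by
    intro y hy
    obtain ⟨x, rfl⟩ := S.ex y hy
    rw [hs']
  constructor
  · rw [← LinearMap.ker_eq_bot, LinearMap.ker_eq_bot']
    intro x hx
    obtain ⟨D, rfl⟩ := Submodule.Quotient.mk_surjective _ x
    have hx' : (Submodule.Quotient.mk (Z1map S.p S.isBim D) : H1 Q) = 0 := hx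
    rw [Submodule.Quotient.mk_eq_zero] at hx'
    obtain ⟨q, hq⟩ := hx'
    obtain ⟨m, rfl⟩ := S.surj q
    have hq' : ∀ a, S.p (D.1 a) = Q.l a (S.p m) - Q.r a (S.p m) := hq
    rw [Submodule.Quotient.mk_eq_zero]
    have hE : ∀ a, S.i (s (D.1 a - (M.l a m - M.r a m))) = D.1 a - (M.l a m - M.r a m) := by
      intro a
      apply hs2
      rw [map_sub, map_sub, S.pl, S.pr, hq']; abel
    obtain ⟨x, hx⟩ := h0 (s.comp (D.1 - (M.l.flip m - M.r.flip m))) (by
      intro a b
      apply S.inj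
      show S.i (s (D.1 (a * b) - (M.l (a * b) m - M.r (a * b) m))) =
        S.i (K.l a (s (D.1 b - (M.l b m - M.r b m))) + K.r b (s (D.1 a - (M.l a m - M.r a m))))
      rw [hE, map_add, S.il, S.ir, hE, hE]
      have h1 := D.2 a b
      have h2 := isDer_delta M m a b
      simp only [LinearMap.sub_apply, LinearMap.flip_apply] at h2
      rw [h1, h2]
      simp only [map_sub]
      abel)
    refine ⟨m + S.i x, fun a => ?_⟩
    have h3 : s (D.1 a - (M.l a m - M.r a m)) = K.l a x - K.r a x := hx a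
    have h1 := congrArg S.i h3
    rw [hE, map_sub, S.il, S.ir] at h1
    rw [map_add, map_add]
    have : D.1 a = (M.l a m - M.r a m) + (M.l a (S.i x) - M.r a (S.i x)) := by
      rw [← h1]; abel
    rw [this]; abel
  · intro x
    obtain ⟨D, rfl⟩ := Submodule.Quotient.mk_surjective _ x
    obtain ⟨t, ht⟩ := LinearMap.exists_rightInverse_of_surjective S.p
      (LinearMap.range_eq_top.2 S.surj)
    have ht' : ∀ y, S.p (t y) = y := fun y => congrArg (fun u : Q.V →ₗ[k] Q.V => u y) ht
    -- lift of D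
    let f : A →ₗ[k] M.V := t.comp D.1
    have hf : ∀ a, S.p (f a) = D.1 a := fun a => ht' _
    -- delta f
    let g : A →ₗ[k] (A →ₗ[k] M.V) :=
      (show A →ₗ[k] (A →ₗ[k] M.V) from delta (HanHoch.T M) f)
    have hg : ∀ a b, g a b = M.l a (f b) - (f (a * b) - M.r b (f a)) := fun a b => rfl
    have hgd : IsDer (HanHoch.T M) g := isDer_delta (HanHoch.T M) f
    have hgi : ∀ a b, S.i (s (g a b)) = g a b := by
      intro a b
      apply hs2
      rw [hg, map_sub, map_sub, S.pl, S.pr, hf, hf, hf, D.2 a b]; abel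
    let g' : A →ₗ[k] (A →ₗ[k] K.V) := (LinearMap.compRight (M := A) k s).comp g
    have hg' : ∀ a b, g' a b = s (g a b) := fun a b => rfl
    obtain ⟨x, hx⟩ := h1 g' (by
      intro a b
      refine LinearMap.ext fun c => ?_
      apply S.inj
      show S.i (s (g (a * b) c)) = S.i (K.l a (s (g b c)) + (s (g a (b * c)) - K.r c (s (g a b))))
      rw [map_add, map_sub, S.il, S.ir, hgi, hgi, hgi, hgi]
      have h := congrArg (fun u : A →ₗ[k] M.V => u c) (hgd a b)
      have h' : g (a * b) c = M.l a (g b c) + (g a (b * c) - M.r c (g a b)) := h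
      rw [h'])
    change A →ₗ[k] K.V at x
    have hx' : ∀ a b, s (g a b) = K.l a (x b) - (x (a * b) - K.r b (x a)) := by
      intro a b
      exact congrArg (fun u : A →ₗ[k] K.V => u b) (hx a)
    have hD : IsDer M (f - S.i.comp x) := by
      intro a b
      have h := congrArg S.i (hx' a b)
      rw [hgi, hg, map_sub, map_sub, S.il, S.ir] at h
      show f (a * b) - S.i (x (a * b)) = M.l a (f b - S.i (x b)) + M.r b (f a - S.i (x a))
      rw [map_sub, map_sub]
      have h2 : f (a * b) = M.l a (f b) + M.r b (f a) - (M.l a (f b) - (f (a * b) - M.r b (f a))) := by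
        abel
      rw [h2, h]; abel
    refine ⟨Submodule.Quotient.mk ⟨f - S.i.comp x, hD⟩, ?_⟩
    show (Submodule.Quotient.mk (Z1map S.p S.isBim ⟨f - S.i.comp x, hD⟩) : H1 Q) = _
    congr 1
    apply Subtype.ext
    refine LinearMap.ext fun a => ?_
    show S.p (f a - S.i (x a)) = D.1 a
    rw [map_sub, S.pi, hf, sub_zero]

theorem eig_base [IsAlgClosed k] [FiniteDimensional k A] (E F : Bim k A)
    [FiniteDimensional k F.V] (i m : E.V →ₗ[k] F.V)
    (hi : ∃ (K : Bim k A) (S : SES K E F), S.p = i ∧ Van1 K ∧ Van1 (T K))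
    (hm : ∀ c : k, ∃ (K : Bim k A) (S : SES K E F), S.p = m - c • i ∧ Van1 K ∧ Van1 (T K)) :
    Van1 F := by
  apply van1_of_H1
  by_contra hne
  rw [not_subsingleton_iff_nontrivial] at hne
  obtain ⟨K, S, hp, hK0, hK1⟩ := hi
  have hib : IsBim i := hp ▸ S.isBim
  have hbij : Function.Bijective (H1map i hib) := by
    have := S.H1_bij hK0 hK1
    subst hp
    exact this
  obtain ⟨K', S', hp', -, -⟩ := hm 0
  have hmb : IsBim m := by
    have : m = S'.p := by rw [hp']; simp
    rw [this]; exact S'.isBim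
  let e := LinearEquiv.ofBijective (H1map i hib) hbij
  have : FiniteDimensional k (A →ₗ[k] F.V) := inferInstance
  have : FiniteDimensional k (Z1 F) := inferInstance
  have : FiniteDimensional k (H1 F) := inferInstance
  let θ : Module.End k (H1 F) := (H1map m hmb).comp e.symm.toLinearMap
  obtain ⟨c, hc⟩ := Module.End.exists_eigenvalue θ
  obtain ⟨v, hv⟩ := hc.exists_hasEigenvector
  have hv1 : θ v = c • v := hv.apply_eq_smul
  have hv2 : v ≠ 0 := hv.2
  obtain ⟨K2, S2, hp2, hK20, hK21⟩ := hm c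
  have hb2 : IsBim (m - c • i) := hp2 ▸ S2.isBim
  have hbij2 : Function.Bijective (H1map (m - c • i) hb2) := by
    have := S2.H1_bij hK20 hK21
    have key : ∀ (p : E.V →ₗ[k] F.V) (hp : IsBim p), p = S2.p →
        Function.Bijective (H1map p hp) := by
      intro p hp h
      subst h
      exact this
    exact key _ hb2 hp2.symm
  have hz : H1map (m - c • i) hb2 (e.symm v) = 0 := by
    have h1 : H1map (m - c • i) hb2 (e.symm v) =
        H1map m hmb (e.symm v) - c • H1map i hib (e.symm v) := by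
      generalize e.symm v = w
      obtain ⟨D, rfl⟩ := Submodule.Quotient.mk_surjective _ w
      rfl
    rw [h1]
    have h2 : H1map i hib (e.symm v) = v := e.apply_symm_apply v
    have h3 : H1map m hmb (e.symm v) = θ v := rfl
    rw [h2, h3, hv1, sub_self]
  have h0 : e.symm v = 0 := by
    apply hbij2.1
    rw [hz, map_zero]
  apply hv2
  have := congrArg e h0
  rwa [e.apply_symm_apply, map_zero] at this

/-- the functor `Tn` on maps -/
def Tmap {E F : Bim k A} : (n : ℕ) → (E.V →ₗ[k] F.V) → ((Tn n E).V →ₗ[k] (Tn n F).V)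
  | 0, f => f
  | n + 1, f => (show (A →ₗ[k] (Tn n E).V) →ₗ[k] (A →ₗ[k] (Tn n F).V) from
      LinearMap.compRight (M := A) k (Tmap n f))

lemma SES.Tn_p {K M Q : Bim k A} (S : SES K M Q) (n : ℕ) : (S.Tn n).p = Tmap n S.p := by
  induction n with
  | zero => rfl
  | succ n ih =>
    refine LinearMap.ext fun f => ?_
    change A →ₗ[k] (HanHoch.Tn n M).V at f
    refine LinearMap.ext fun x => ?_
    show (S.Tn n).p (f x) = Tmap n S.p (f x)
    rw [ih]

lemma Tmap_sub_smul {E F : Bim k A} (m i : E.V →ₗ[k] F.V) (c : k) (n : ℕ) :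
    Tmap n (m - c • i) = Tmap n m - c • Tmap n i := by
  induction n with
  | zero => rfl
  | succ n ih =>
    refine LinearMap.ext fun f => ?_
    change A →ₗ[k] (Tn n E).V at f
    refine LinearMap.ext fun x => ?_
    show Tmap n (m - c • i) (f x) = Tmap n m (f x) - c • Tmap n i (f x)
    rw [ih]; rfl

lemma finite_Tn [FiniteDimensional k A] (F : Bim k A) [FiniteDimensional k F.V] (n : ℕ) :
    FiniteDimensional k (Tn n F).V := by
  induction n with
  | zero => assumption
  | succ n ih =>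
    show FiniteDimensional k (A →ₗ[k] (Tn n F).V)
    infer_instance

/-- (E) the eigenvalue lemma. -/
theorem eig [IsAlgClosed k] [FiniteDimensional k A] (E F : Bim k A)
    [FiniteDimensional k F.V] (i m : E.V →ₗ[k] F.V)
    (hi : ∃ (K : Bim k A) (S : SES K E F), S.p = i ∧ ∀ n, HVan n K)
    (hm : ∀ c : k, ∃ (K : Bim k A) (S : SES K E F), S.p = m - c • i ∧ ∀ n, HVan n K) :
    ∀ n, HVan n F := by
  intro n
  have := finite_Tn F n
  refine eig_base (Tn n E) (Tn n F) (Tmap n i) (Tmap n m) ?_ ?_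
  · obtain ⟨K, S, hp, hK⟩ := hi
    exact ⟨Tn n K, S.Tn n, by rw [S.Tn_p, hp], hK n, hK (n + 1)⟩
  · intro c
    obtain ⟨K, S, hp, hK⟩ := hm c
    exact ⟨Tn n K, S.Tn n, by rw [S.Tn_p, hp, Tmap_sub_smul], hK n, hK (n + 1)⟩

end HanHoch
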