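import Mathlib
import Pool.Agent.Helper676.Hoch

set_option autoImplicit false

/-! Left modules, `Hom_k(X,Y)`, duals, the eigenvalue lemma. -/

namespace HanHoch

variable {k : Type} [Field k] {A : Type} [Ring A] [Algebra k A]

variable (k A) in
/-- left modules, bundled -/
structure LMod where
  V : Type
  [ag : AddCommGroup V]
  [md : Module k V]
  act : A →ₗ[k] V →ₗ[k] V
  act_mul : ∀ a b v, act (a * b) v = act a (act b v)
  act_one : ∀ v, act 1 v = v

attribute [instance] LMod.ag LMod.md

/-- `Hom_k(X,Y)`, `(a·f)(x) = a·f(x)`, `(f·a)(x) = f(a·x)`. -/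
def homBim (X Y : LMod k A) : Bim k A where
  V := X.V →ₗ[k] Y.V
  l := LinearMap.mk₂ k (fun a f => (Y.act a).comp f)
    (by intro a b f; ext x; simp)
    (by intro c a f; ext x; simp)
    (by intro a f g; ext x; simp)
    (by intro c a f; ext x; simp)
  r := LinearMap.mk₂ k (fun a f => f.comp (X.act a))
    (by intro a b f; ext x; simp)
    (by intro c a f; ext x; simp)
    (by intro a f g; ext x; simp)
    (by intro c a f; ext x; simp)
  l_mul := by intro a b f; ext x; simp [Y.act_mul]
  r_mul := by intro a b f; ext x; simp [X.act_mul]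
  l_r := by intro a b f; ext x; simp
  l_one := by intro f; ext x; simp [Y.act_one]

/-- short exact sequences of left modules -/
structure LSES (X' X X'' : LMod k A) where
  i : X'.V →ₗ[k] X.V
  p : X.V →ₗ[k] X''.V
  il : ∀ a v, i (X'.act a v) = X.act a (i v)
  pl : ∀ a v, p (X.act a v) = X''.act a (p v)
  inj : Function.Injective i
  surj : Function.Surjective p
  pi : ∀ x, p (i x) = 0
  ex : ∀ m, p m = 0 → ∃ x, i x = m

def LSES.hom {X' X X'' : LMod k A} (S : LSES X' X X'') (Y : LMod k A) :
    SES (homBim X'' Y) (homBim X Y) (homBim X' Y) where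
  i := (show (X''.V →ₗ[k] Y.V) →ₗ[k] (X.V →ₗ[k] Y.V) from LinearMap.lcomp k Y.V S.p)
  p := (show (X.V →ₗ[k] Y.V) →ₗ[k] (X'.V →ₗ[k] Y.V) from LinearMap.lcomp k Y.V S.i)
  il := by
    intro a f
    rfl
  ir := by
    intro a f
    change X''.V →ₗ[k] Y.V at f
    refine LinearMap.ext fun x => ?_
    show f (X''.act a (S.p x)) = f (S.p (X.act a x))
    rw [S.pl]
  pl := by
    intro a f
    rfl
  pr := by
    intro a f
    change X.V →ₗ[k] Y.V at f
    refine LinearMap.ext fun x => ?_
    show f (X.act a (S.i x)) = f (S.i (X'.act a x))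
    rw [S.il]
  inj := by
    intro f g h
    change X''.V →ₗ[k] Y.V at f g
    refine LinearMap.ext fun x => ?_
    obtain ⟨y, rfl⟩ := S.surj x
    exact congrArg (fun u : X.V →ₗ[k] Y.V => u y) h
  surj := by
    intro g
    change X'.V →ₗ[k] Y.V at g
    obtain ⟨s, hs⟩ := LinearMap.exists_leftInverse_of_injective S.i
      (LinearMap.ker_eq_bot.2 S.inj)
    refine ⟨g.comp s, ?_⟩
    refine LinearMap.ext fun x => ?_
    show g (s (S.i x)) = g x
    exact congrArg g (congrArg (fun u : X'.V →ₗ[k] X'.V => u x) hs)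
  pi := by
    intro f
    change X''.V →ₗ[k] Y.V at f
    refine LinearMap.ext fun x => ?_
    show f (S.p (S.i x)) = 0
    rw [S.pi, map_zero]
  ex := by
    intro f hf
    change X.V →ₗ[k] Y.V at f
    obtain ⟨s, hs⟩ := LinearMap.exists_rightInverse_of_surjective S.p
      (LinearMap.range_eq_top.2 S.surj)
    refine ⟨f.comp s, ?_⟩
    refine LinearMap.ext fun x => ?_
    show f (s (S.p x)) = f x
    have h1 : S.p (x - s (S.p x)) = 0 := by
      rw [map_sub]
      have : S.p (s (S.p x)) = S.p x := congrArg (fun u : X''.V →ₗ[k] X''.V => u (S.p x)) hs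
      rw [this, sub_self]
    obtain ⟨y, hy⟩ := S.ex _ h1
    have h2 : f (S.i y) = 0 := congrArg (fun u : X'.V →ₗ[k] Y.V => u y) hf
    rw [hy, map_sub] at h2
    exact (sub_eq_zero.1 h2).symm

/-- `X` is a direct summand of a free module of finite rank. -/
theorem homBim_CL {X : LMod k A} (Y : LMod k A) {ι : Type} [Fintype ι]
    (c : ι → (X.V →ₗ[k] A)) (e : ι → X.V) (hc : ∀ i a x, c i (X.act a x) = a * c i x)
    (he : ∀ x, ∑ i, X.act (c i x) (e i) = x) : CL (homBim X Y) := by
  let h : (A →ₗ[k] (X.V →ₗ[k] Y.V)) →ₗ[k] (X.V →ₗ[k] Y.V) :=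
    { toFun := fun t => - ∑ i, (t.flip (e i)).comp (c i)
      map_add' := by
        intro s t
        refine LinearMap.ext fun x => ?_
        simp [Finset.sum_add_distrib]; abel
      map_smul' := by
        intro r t
        refine LinearMap.ext fun x => ?_
        simp [Finset.smul_sum] }
  have hh : ∀ t x, h t x = - ∑ i, t (c i x) (e i) := by
    intro t x
    show (- ∑ i, (t.flip (e i)).comp (c i)) x = _
    simp
  refine ⟨h, ?_, ?_⟩
  · intro a t
    change A →ₗ[k] (X.V →ₗ[k] Y.V) at t
    refine LinearMap.ext fun x => ?_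
    refine (hh _ x).trans ?_
    show - ∑ i, Y.act a (t (c i x) (e i)) = Y.act a (h t x)
    rw [hh, map_neg, map_sum]
  · intro a t
    change A →ₗ[k] (X.V →ₗ[k] Y.V) at t
    refine LinearMap.ext fun x => ?_
    refine (congrArg₂ (fun u v : Y.V => u - v) (hh _ x) (hh t (X.act a x))).trans ?_
    show (- ∑ i, (t (a * c i x) (e i) - t a (X.act (c i x) (e i)))) -
      (- ∑ i, t (c i (X.act a x)) (e i)) = t a x
    rw [Finset.sum_sub_distrib, ← map_sum, he]
    simp only [hc]
    abel

/-! ### duals of bimodules -/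

/-- the dual bimodule; `(a·φ)(x) = φ(x·a)`, `(φ·a)(x) = φ(a·x)`. -/
def dualBim (M : Bim k A) (hM : ∀ v, M.r 1 v = v) : Bim k A where
  V := M.V →ₗ[k] k
  l := LinearMap.mk₂ k (fun a f => f.comp (M.r a))
    (by intro a b f; ext x; simp)
    (by intro c a f; ext x; simp)
    (by intro a f g; ext x; simp)
    (by intro c a f; ext x; simp)
  r := LinearMap.mk₂ k (fun a f => f.comp (M.l a))
    (by intro a b f; ext x; simp)
    (by intro c a f; ext x; simp)
    (by intro a f g; ext x; simp)
    (by intro c a f; ext x; simp)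
  l_mul := by intro a b f; ext x; simp [M.r_mul]
  r_mul := by intro a b f; ext x; simp [M.l_mul]
  l_r := by intro a b f; ext x; simp [M.l_r]
  l_one := by intro f; ext x; simp [hM]

def SES.dual {K M Q : Bim k A} (S : SES K M Q) (hK : ∀ v, K.r 1 v = v) (hM : ∀ v, M.r 1 v = v)
    (hQ : ∀ v, Q.r 1 v = v) : SES (dualBim Q hQ) (dualBim M hM) (dualBim K hK) where
  i := (show (Q.V →ₗ[k] k) →ₗ[k] (M.V →ₗ[k] k) from LinearMap.lcomp k k S.p)
  p := (show (M.V →ₗ[k] k) →ₗ[k] (K.V →ₗ[k] k) from LinearMap.lcomp k k S.i)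
  il := by
    intro a f
    change Q.V →ₗ[k] k at f
    refine LinearMap.ext fun x => ?_
    show f (Q.r a (S.p x)) = f (S.p (M.r a x))
    rw [S.pr]
  ir := by
    intro a f
    change Q.V →ₗ[k] k at f
    refine LinearMap.ext fun x => ?_
    show f (Q.l a (S.p x)) = f (S.p (M.l a x))
    rw [S.pl]
  pl := by
    intro a f
    change M.V →ₗ[k] k at f
    refine LinearMap.ext fun x => ?_
    show f (M.r a (S.i x)) = f (S.i (K.r a x))
    rw [S.ir]
  pr := by
    intro a f
    change M.V →ₗ[k] k at f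
    refine LinearMap.ext fun x => ?_
    show f (M.l a (S.i x)) = f (S.i (K.l a x))
    rw [S.il]
  inj := by
    intro f g h
    change Q.V →ₗ[k] k at f g
    refine LinearMap.ext fun x => ?_
    obtain ⟨y, rfl⟩ := S.surj x
    exact congrArg (fun u : M.V →ₗ[k] k => u y) h
  surj := by
    intro g
    change K.V →ₗ[k] k at g
    obtain ⟨s, hs⟩ := LinearMap.exists_leftInverse_of_injective S.i
      (LinearMap.ker_eq_bot.2 S.inj)
    refine ⟨g.comp s, ?_⟩
    refine LinearMap.ext fun x => ?_
    show g (s (S.i x)) = g x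
    exact congrArg g (congrArg (fun u : K.V →ₗ[k] K.V => u x) hs)
  pi := by
    intro f
    change Q.V →ₗ[k] k at f
    refine LinearMap.ext fun x => ?_
    show f (S.p (S.i x)) = 0
    rw [S.pi, map_zero]
  ex := by
    intro f hf
    change M.V →ₗ[k] k at f
    obtain ⟨s, hs⟩ := LinearMap.exists_rightInverse_of_surjective S.p
      (LinearMap.range_eq_top.2 S.surj)
    refine ⟨f.comp s, ?_⟩
    refine LinearMap.ext fun x => ?_
    show f (s (S.p x)) = f x
    have h1 : S.p (x - s (S.p x)) = 0 := by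
      rw [map_sub]
      have : S.p (s (S.p x)) = S.p x := congrArg (fun u : Q.V →ₗ[k] Q.V => u (S.p x)) hs
      rw [this, sub_self]
    obtain ⟨y, hy⟩ := S.ex _ h1
    have h2 : f (S.i y) = 0 := congrArg (fun u : K.V →ₗ[k] k => u y) hf
    rw [hy, map_sub] at h2
    exact (sub_eq_zero.1 h2).symm

/-- The bimodule `S ⊗ eA` (with `S` one-dimensional, the left action is by the scalars `χ a`):
its dual is acyclic. -/
theorem dualBim_CR {M : Bim k A} (hM : ∀ v, M.r 1 v = v) (χ : A → k)
    (hχ : ∀ a v, M.l a v = χ a • v) (c : M.V →ₗ[k] A) (u : M.V)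
    (hc : ∀ a v, c (M.r a v) = c v * a) (hu : ∀ v, M.r (c v) u = v) : CR (dualBim M hM) := by
  let h : (A →ₗ[k] (M.V →ₗ[k] k)) →ₗ[k] (M.V →ₗ[k] k) :=
    { toFun := fun t => (t.flip u).comp c
      map_add' := by intro s t; refine LinearMap.ext fun x => ?_; simp
      map_smul' := by intro r t; refine LinearMap.ext fun x => ?_; simp }
  have hh : ∀ t x, h t x = t (c x) u := fun t x => rfl
  refine ⟨h, ?_, ?_, ?_⟩
  · intro a t
    change A →ₗ[k] (M.V →ₗ[k] k) at t
    refine LinearMap.ext fun x => ?_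
    show t (c x) (M.l a u) = t (c (M.l a x)) u
    simp [hχ]
  · intro a t
    change A →ₗ[k] (M.V →ₗ[k] k) at t
    refine LinearMap.ext fun x => ?_
    show t (c x * a) u = t (c (M.r a x)) u
    rw [hc]
  · intro m
    change M.V →ₗ[k] k at m
    refine LinearMap.ext fun x => ?_
    show m (M.r (c x) u) = m x
    rw [hu]

end HanHoch
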