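import Mathlib
import Pool.Agent.Helper676.Hoch2
import Pool.Agent.H39H.Sec3

set_option autoImplicit false

/-! Section 3 of paper 207, generic glue between Mathlib modules and `HanHoch`. -/

namespace HanHoch

variable {k : Type} [Field k] {A : Type} [Ring A] [Algebra k A]

variable (k A) in
/-- a Mathlib module as a bundled left module -/
def LMod.of (X : Type) [AddCommGroup X] [Module A X] [Module k X] [IsScalarTower k A X] :
    LMod k A where
  V := X
  act := LinearMap.mk₂ k (fun (a : A) (x : X) => a • x)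
    (by intro a b x; exact add_smul a b x)
    (by intro c a x; exact smul_assoc c a x)
    (by intro a x y; exact smul_add a x y)
    (by
      intro c a x
      rw [← algebraMap_smul A c x, ← algebraMap_smul A c (a • x), ← mul_smul, ← mul_smul,
        Algebra.commutes])
  act_mul := by intro a b x; exact mul_smul a b x
  act_one := by intro x; exact one_smul A x

variable {X X' X'' : Type} [AddCommGroup X] [Module A X] [Module k X] [IsScalarTower k A X]
  [AddCommGroup X'] [Module A X'] [Module k X'] [IsScalarTower k A X']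
  [AddCommGroup X''] [Module A X''] [Module k X''] [IsScalarTower k A X'']

variable (k) in
/-- restriction of scalars of an `A`-linear map -/
def resK (f : X →ₗ[A] X') : X →ₗ[k] X' where
  toFun := f
  map_add' := map_add f
  map_smul' := by
    intro c x
    simp only [RingHom.id_apply]
    rw [← algebraMap_smul A c x, ← algebraMap_smul A c (f x), map_smul]

variable (k) in
def LSES.of (f : X' →ₗ[A] X) (g : X →ₗ[A] X'') (hf : Function.Injective f)
    (hg : Function.Surjective g) (hfg : Function.Exact f g) :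
    LSES (LMod.of k A X') (LMod.of k A X) (LMod.of k A X'') where
  i := (show X' →ₗ[k] X from resK k f)
  p := (show X →ₗ[k] X'' from resK k g)
  il := by intro a v; change X' at v; show f (a • v) = a • f v; exact map_smul f a v
  pl := by intro a v; change X at v; show g (a • v) = a • g v; exact map_smul g a v
  inj := hf
  surj := hg
  pi := by intro x; exact (hfg _).2 ⟨x, rfl⟩
  ex := by intro m hm; exact (hfg m).1 hm

theorem CL_of_projective [Module.Finite A X] [Module.Projective A X] (Y : LMod k A) :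
    CL (homBim (LMod.of k A X) Y) := by
  obtain ⟨n, f, g, -, -, hfg⟩ := Module.Finite.exists_comp_eq_id_of_projective A X
  refine homBim_CL (X := LMod.of k A X) Y (ι := Fin n)
    (fun i => (show X →ₗ[k] A from resK k ((LinearMap.proj i : (Fin n → A) →ₗ[A] A).comp g)))
    (fun i => f (Pi.single i 1)) ?_ ?_
  · intro i a x
    change X at x
    show g (a • x) i = a * g x i
    rw [map_smul]; rfl
  · intro x
    change X at x
    show ∑ i, g x i • f (Pi.single i 1) = x
    have h1 : f (g x) = x := LinearMap.congr_fun hfg x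
    conv_rhs => rw [← h1]
    rw [show g x = ∑ i, g x i • (Pi.single i (1 : A) : Fin n → A) by
      ext j; simp [Finset.sum_apply, Pi.single_apply]]
    simp only [map_sum, map_smul]
    simp [Finset.sum_apply, Pi.single_apply]

/-- central elements of `Hom_k(X,Y)` are the `A`-linear maps -/
def central_lin {Y : Type} [AddCommGroup Y] [Module A Y] [Module k Y] [IsScalarTower k A Y]
    (f : X →ₗ[k] Y) (hf : ∀ (a : A) (x : X), a • f x = f (a • x)) : X →ₗ[A] Y where
  toFun := f
  map_add' := map_add f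
  map_smul' := by intro a x; exact (hf a x).symm

/-- (L3) for `Hom_k(-,Y)` : extension of homs gives `Ext^1 = 0`. -/
theorem van1_of_ext {Y : Type} [AddCommGroup Y] [Module A Y] [Module k Y] [IsScalarTower k A Y]
    (f : X' →ₗ[A] X) (g : X →ₗ[A] X'') (hf : Function.Injective f)
    (hg : Function.Surjective g) (hfg : Function.Exact f g)
    (hX : HVan 0 (homBim (LMod.of k A X) (LMod.of k A Y)))
    (hext : ∀ φ : X' →ₗ[A] Y, ∃ ψ : X →ₗ[A] Y, ∀ x, ψ (f x) = φ x) :
    HVan 0 (homBim (LMod.of k A X'') (LMod.of k A Y)) := by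
  refine Van1.left ((LSES.of k f g hf hg hfg).hom (LMod.of k A Y)) hX ?_
  intro q hq
  change X' →ₗ[k] Y at q
  have hq' : ∀ (a : A) (x : X'), a • q x = q (a • x) := fun a x =>
    congrArg (fun u : X' →ₗ[k] Y => u x) (hq a)
  obtain ⟨ψ, hψ⟩ := hext (central_lin q hq')
  refine ⟨(show X →ₗ[k] Y from resK k ψ), ?_, ?_⟩
  · intro a
    refine LinearMap.ext fun (x : X) => ?_
    show a • ψ x = ψ (a • x)
    rw [map_smul]
  · refine LinearMap.ext fun (x : X') => ?_
    show ψ (f x) = q x
    exact hψ x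

/-- Section 3. -/
theorem van_points {Pt : Type} (sh : Pt → Pt) (good : Pt → Prop)
    (hgood : ∀ p, good p → good (sh p))
    (X I' I Z : Pt → Type)
    [∀ p, AddCommGroup (X p)] [∀ p, Module A (X p)] [∀ p, Module k (X p)]
    [∀ p, IsScalarTower k A (X p)]
    [∀ p, AddCommGroup (I' p)] [∀ p, Module A (I' p)] [∀ p, Module k (I' p)]
    [∀ p, IsScalarTower k A (I' p)]
    [∀ p, AddCommGroup (I p)] [∀ p, Module A (I p)] [∀ p, Module k (I p)]
    [∀ p, IsScalarTower k A (I p)]
    [∀ p, AddCommGroup (Z p)] [∀ p, Module A (Z p)] [∀ p, Module k (Z p)]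
    [∀ p, IsScalarTower k A (Z p)]
    (P2 P1 P0 Y : Type)
    [AddCommGroup P2] [Module A P2] [Module k P2] [IsScalarTower k A P2]
    [AddCommGroup P1] [Module A P1] [Module k P1] [IsScalarTower k A P1]
    [AddCommGroup P0] [Module A P0] [Module k P0] [IsScalarTower k A P0]
    [AddCommGroup Y] [Module A Y] [Module k Y] [IsScalarTower k A Y]
    (f2 : Module.Finite A P2) (q2' : Module.Projective A P2)
    (f1 : Module.Finite A P1) (q1' : Module.Projective A P1)
    (f0 : Module.Finite A P0) (q0' : Module.Projective A P0)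
    (i1 : ∀ p, I' p →ₗ[A] P2) (q1 : ∀ p, P2 →ₗ[A] X p)
    (i2 : ∀ p, I p →ₗ[A] I' p) (q2 : ∀ p, I' p →ₗ[A] X (sh p))
    (z : ∀ p, Z p →ₗ[A] P1) (s : ∀ p, P1 →ₗ[A] I p)
    (j : ∀ p, P0 →ₗ[A] Z p) (q4 : ∀ p, Z p →ₗ[A] X (sh p))
    (i1_inj : ∀ p, Function.Injective (i1 p)) (q1_surj : ∀ p, Function.Surjective (q1 p))
    (ex1 : ∀ p, Function.Exact (i1 p) (q1 p))
    (i2_inj : ∀ p, Function.Injective (i2 p)) (q2_surj : ∀ p, Function.Surjective (q2 p))
    (ex2 : ∀ p, Function.Exact (i2 p) (q2 p))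
    (z_inj : ∀ p, Function.Injective (z p)) (s_surj : ∀ p, Function.Surjective (s p))
    (ex3 : ∀ p, Function.Exact (z p) (s p))
    (j_inj : ∀ p, Function.Injective (j p)) (q4_surj : ∀ p, Function.Surjective (q4 p))
    (ex4 : ∀ p, Function.Exact (j p) (q4 p))
    (hX : ∀ p, good p → ∀ f : X p →ₗ[A] Y, f = 0)
    (hE1 : ∀ p, good p → ∀ χ : P1 →ₗ[A] Y, (∀ x, χ (z p (j p x)) = 0) →
      ∃ ψ : P2 →ₗ[A] Y, ∀ x, ψ (i1 p (i2 p (s p x))) = χ x)
    (hE2 : ∀ p, good p → ∀ χ : P0 →ₗ[A] Y, ∃ ψ : P1 →ₗ[A] Y, ∀ x, ψ (z p (j p x)) = χ x) :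
    ∀ p, good p → ∀ n, HVan n (homBim (LMod.of k A (X p)) (LMod.of k A Y)) := by
  have v2 : ∀ n, HVan n (homBim (LMod.of k A P2) (LMod.of k A Y)) :=
    (CL_of_projective (LMod.of k A Y)).hvan
  have v1 : ∀ n, HVan n (homBim (LMod.of k A P1) (LMod.of k A Y)) :=
    (CL_of_projective (LMod.of k A Y)).hvan
  have v0 : ∀ n, HVan n (homBim (LMod.of k A P0) (LMod.of k A Y)) :=
    (CL_of_projective (LMod.of k A Y)).hvan
  let EV : (W : LMod k A) → ℕ → Prop := fun W n => HVan (n - 1) (homBim W (LMod.of k A Y))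
  let S1 := fun p => LSES.of k (i1 p) (q1 p) (i1_inj p) (q1_surj p) (ex1 p)
  let S2 := fun p => LSES.of k (i2 p) (q2 p) (i2_inj p) (q2_surj p) (ex2 p)
  let S3 := fun p => LSES.of k (z p) (s p) (z_inj p) (s_surj p) (ex3 p)
  let S4 := fun p => LSES.of k (j p) (q4 p) (j_inj p) (q4_surj p) (ex4 p)
  have key := Pool.Agent.H39H.vanish_all (ι := Pt) sh good hgood
    (fun p n => EV (LMod.of k A (X p)) n) (fun p n => EV (LMod.of k A (I' p)) n)
    (fun p n => EV (LMod.of k A (I p)) n) (fun p n => EV (LMod.of k A (Z p)) n)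
    (fun p n hn h => by
      obtain ⟨m, rfl⟩ : ∃ m, n = m + 1 := ⟨n - 1, by omega⟩
      exact HVan.shift ((S1 p).hom (LMod.of k A Y)) m (v2 _) h)
    (fun p n hn h h' => by
      exact HVan.mid ((S2 p).hom (LMod.of k A Y)) (n - 1) h' h)
    (fun p n hn h => by
      obtain ⟨m, rfl⟩ : ∃ m, n = m + 1 := ⟨n - 1, by omega⟩
      exact HVan.shift ((S3 p).hom (LMod.of k A Y)) m (v1 _) h)
    (fun p n hn h => by
      exact HVan.mid ((S4 p).hom (LMod.of k A Y)) (n - 1) h (v0 _))
    (fun p hp => by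
      refine van1_of_ext (i1 p) (q1 p) (i1_inj p) (q1_surj p) (ex1 p) (v2 0) ?_
      intro φ
      refine Pool.Agent.H39H.extend_I' (i1 p) (i2 p) (q2 p) (s p) ((z p).comp (j p))
        (q2_surj p) (fun x hx => (ex2 p x).1 hx) (fun y => (ex2 p _).2 ⟨y, rfl⟩) (s_surj p)
        (fun x => (ex3 p _).2 ⟨j p x, rfl⟩) (hX _ (hgood p hp)) ?_ φ
      intro χ hχ
      exact hE1 p hp χ hχ)
    (fun p hp => by
      refine van1_of_ext (z p) (s p) (z_inj p) (s_surj p) (ex3 p) (v1 0) ?_
      intro φ
      refine Pool.Agent.H39H.extend_Z (z p) (j p) (q4 p)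
        (q4_surj p) (fun x hx => (ex4 p x).1 hx) (hX _ (hgood p hp)) ?_ φ
      intro χ
      exact hE2 p hp χ)
  intro p hp n
  exact key (n + 1) (by omega) p hp

end HanHoch
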